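import Pool.Agent.COV.StmtsB

/-!
# COV, row GRP: the result of block B
-/

set_option autoImplicit false

namespace Pool.Agent.COV.H51

open Polynomial Pool.Agent.KDT.Z Pool.Agent.COV

theorem cov_mono {k : Type} [Field k] {m m' : ℕ} (h : m ≤ m') {F : k[X]} (hc : Cov m F) :
    Cov m' F := by
  obtain ⟨j, P, Q, V, h1, h2, h3, h4, h5, h6⟩ := hc
  exact ⟨j, P, Q, V, h1, h2, h3.trans h, h4.trans h, h5, h6⟩

theorem aeval_disc {k U : Type} [Field k] [Field U] [Algebra k U] (s p : U) :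
    MvPolynomial.aeval ![s, p]
      ((MvPolynomial.X 0 ^ 2 - MvPolynomial.C 4 * MvPolynomial.X 1 : MvPolynomial (Fin 2) k)) =
      s ^ 2 - 4 * p := by
  have h4 : algebraMap k U 4 = 4 := map_ofNat _ 4
  simp [h4]

/-- **GRP**. -/
theorem grp (hHOM : HomStmt) (hCLS : ClsStmt) (hFLD : FldStmt) (hGUP : KDT.Z.GupStatement)
    (hINP : KDT.Z.InpStatement) (hSBG : KDT.Z.SbgStatement) : GrpStmt := by
  intro n
  obtain ⟨n', hn'⟩ := hHOM n
  refine ⟨n' + 1, ?_⟩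
  intro k U _ _ _ f g henv J _ th cl act Jk hjk q Φ hon hgn hq4 hΦ hdeg hZ hinf
  obtain ⟨H0, hH0⟩ := (hSBG k U f g henv J th cl act Jk hjk).2 q hon
  have := henv.kc
  have hnd : ¬ Φ ∣ (MvPolynomial.X 0 ^ 2 - MvPolynomial.C 4 * MvPolynomial.X 1 :
      MvPolynomial (Fin 2) k) := by
    rintro ⟨Ψ, hΨ⟩
    have h1 := aeval_disc (k := k) (q 0) (q 1)
    have hZ' : MvPolynomial.aeval ![q 0, q 1] Φ = 0 := hZ
    rw [hΨ, map_mul, hZ', zero_mul] at h1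
    exact hq4 (sub_eq_zero.1 h1.symm)
  obtain ⟨⟨s0, p0⟩, hs1, hs2⟩ := (hINP k Φ _ hΦ hnd).nonempty
  have hs3 : s0 ^ 2 ≠ 4 * p0 := by
    intro h
    apply hs2
    show MvPolynomial.aeval ![s0, p0] _ = 0
    rw [aeval_disc, h, sub_self]
  obtain ⟨t0, ht0, _, _, hsp⟩ := (hGUP k U f g henv Φ hΦ).1 q hon hgn hq4 hZ s0 p0 hs1 hs3
  have hset : (H0 : Set J) = {h : J | h ∈ Jk ∧ h ∈ Stb cl act q} := by
    ext h
    exact hH0 h
  have hctx : Ctx f g J th cl act Jk q H0 t0 :=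
    ⟨henv, hjk, hon, hgn, hq4, hH0, by rw [hset]; exact hinf, ht0, hsp⟩
  obtain ⟨H, d, s, hE⟩ := hn' k U f g J th cl act Jk q H0 t0 hctx Φ hΦ.ne_zero hdeg hZ
  obtain ⟨m, z, hm2, hm, hinj, hnk, hom, hσ⟩ := hCLS k U f g henv J th cl act Jk hjk H d s n' hE
  exact cov_mono hm (hFLD k U f g henv d s hE.dg hE.s0 hE.sd m z hm2 hinj hnk hom hσ)

end Pool.Agent.COV.H51
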