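import Pool.Agent.Helper11_COV.Data

set_option autoImplicit false

/-!
Squad COV: splitting of kernel runs.  Monotonicity in the continuation.
-/

namespace Pool.Agent.COV.H51

open Pool.Agent.COV

theorem sqe {α : Type} (n : ℕ) (f : ℕ → α) : sq n f = f n := by
  cases n <;> rfl

theorem frce (l : ML) : ∀ K : ML → Bool, frc l K = K l := by
  induction l with
  | nil => intro K; rfl
  | cons a l ih =>
    intro K
    simp only [frc, sqe, ih]

/-- equality test for lists -/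
def eqL : ML → ML → Bool
  | [], [] => true
  | a :: l, b :: k => Nat.beq a.1 b.1 && (Nat.beq a.2 b.2 && eqL l k)
  | _, _ => false

theorem eqL_eq : ∀ (a b : ML), eqL a b = true → a = b
  | [], [], _ => rfl
  | [], b :: k, h => by simp [eqL] at h
  | a :: l, [], h => by simp [eqL] at h
  | a :: l, b :: k, h => by
    simp only [eqL, Bool.and_eq_true] at h
    obtain ⟨h1, h2, h3⟩ := h
    have e1 := Nat.eq_of_beq_eq_true h1
    have e2 := Nat.eq_of_beq_eq_true h2
    rw [eqL_eq l k h3, Prod.ext e1 e2]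

/-- test of a state -/
def st (n' : ℕ) (m' : ML) (A B D : ℕ) (n : ℕ) (m : ML) (M1 M2 T : ℕ) : Bool :=
  Nat.beq n n' && (eqL m m' && (Nat.beq M1 A && (Nat.beq M2 B && Nat.beq T D)))

theorem st_eq {n' : ℕ} {m' : ML} {A B D n : ℕ} {m : ML} {M1 M2 T : ℕ}
    (h : st n' m' A B D n m M1 M2 T = true) : n = n' ∧ m = m' ∧ M1 = A ∧ M2 = B ∧ T = D := by
  simp only [st, Bool.and_eq_true] at h
  obtain ⟨h1, h2, h3, h4, h5⟩ := h
  exact ⟨Nat.eq_of_beq_eq_true h1, eqL_eq _ _ h2, Nat.eq_of_beq_eq_true h3,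
    Nat.eq_of_beq_eq_true h4, Nat.eq_of_beq_eq_true h5⟩

/-- test of a state without a position -/
def st4 (m' : ML) (A B D : ℕ) (m : ML) (M1 M2 T : ℕ) : Bool :=
  eqL m m' && (Nat.beq M1 A && (Nat.beq M2 B && Nat.beq T D))

theorem st4_eq {m' : ML} {A B D : ℕ} {m : ML} {M1 M2 T : ℕ}
    (h : st4 m' A B D m M1 M2 T = true) : m = m' ∧ M1 = A ∧ M2 = B ∧ T = D := by
  simp only [st4, Bool.and_eq_true] at h
  obtain ⟨h2, h3, h4, h5⟩ := h
  exact ⟨eqL_eq _ _ h2, Nat.eq_of_beq_eq_true h3,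
    Nat.eq_of_beq_eq_true h4, Nat.eq_of_beq_eq_true h5⟩

theorem one_mono {PR z t AB BC CC p s0 s1 M1 M2 T : ℕ} {K K' : ℕ → ℕ → ℕ → ℕ → ℕ → Bool}
    (hK : ∀ a b c d e, K a b c d e = true → K' a b c d e = true)
    (h : one PR z t AB BC CC p s0 s1 M1 M2 T K = true) :
    one PR z t AB BC CC p s0 s1 M1 M2 T K' = true := by
  unfold one at h ⊢
  cases hb : Nat.beq (Nat.gcd p PR) 1 with
  | true =>
    rw [hb] at h
    simp only [cond_true, sqe] at h ⊢
    exact hK _ _ _ _ _ h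
  | false =>
    rw [hb] at h
    simp only [cond_false] at h ⊢
    exact hK _ _ _ _ _ h

theorem blk_mono {PR z t AB BC CC : ℕ} {K K' : ℕ → ℕ → ℕ → ℕ → ℕ → ℕ → Bool}
    (hK : ∀ a b c d e g, K a b c d e g = true → K' a b c d e g = true) :
    ∀ (f n s0 s1 M1 M2 T : ℕ), blk PR z t AB BC CC f n s0 s1 M1 M2 T K = true →
      blk PR z t AB BC CC f n s0 s1 M1 M2 T K' = true := by
  intro f
  induction f with
  | zero =>
    intro n s0 s1 M1 M2 T h
    exact hK _ _ _ _ _ _ h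
  | succ f ih =>
    intro n s0 s1 M1 M2 T h
    simp only [blk, sqe] at h ⊢
    refine one_mono (fun a b c d e h1 => ?_) h
    refine one_mono (fun a b c d e h1 => ?_) h1
    exact ih _ _ _ _ _ _ h1

theorem blocks_mono {C PR z : ℕ} {K K' : ℕ → ML → ℕ → ℕ → ℕ → Bool}
    (hK : ∀ a b c d e, K a b c d e = true → K' a b c d e = true) :
    ∀ (L : List (ℕ × ℕ)) (n : ℕ) (m : ML) (M1 M2 T : ℕ), blocks C PR z L n m M1 M2 T K = true →
      blocks C PR z L n m M1 M2 T K' = true := by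
  intro L
  induction L with
  | nil =>
    intro n m M1 M2 T h
    exact hK _ _ _ _ _ h
  | cons b L ih =>
    intro n m M1 M2 T h
    simp only [blocks, sqe, frce, Bool.and_eq_true] at h ⊢
    refine ⟨h.1, blk_mono (fun a b c d e g h1 => ?_) _ _ _ _ _ _ _ h.2⟩
    exact ih _ _ _ _ _ h1

theorem blocks_append {C PR z : ℕ} (K : ℕ → ML → ℕ → ℕ → ℕ → Bool) (L' : List (ℕ × ℕ)) :
    ∀ (L : List (ℕ × ℕ)) (n : ℕ) (m : ML) (M1 M2 T : ℕ),
      blocks C PR z (L ++ L') n m M1 M2 T K =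
      blocks C PR z L n m M1 M2 T (fun n m M1 M2 T => blocks C PR z L' n m M1 M2 T K) := by
  intro L
  induction L with
  | nil =>
    intro n m M1 M2 T
    rfl
  | cons b L ih =>
    intro n m M1 M2 T
    simp only [List.cons_append, blocks, ih]

/-- from a recorded state -/
theorem blocks_st {C PR z : ℕ} {L : List (ℕ × ℕ)} {n : ℕ} {m : ML} {M1 M2 T n' : ℕ} {m' : ML}
    {A B D : ℕ} (h : blocks C PR z L n m M1 M2 T (st n' m' A B D) = true)
    {K : ℕ → ML → ℕ → ℕ → ℕ → Bool} (hK : K n' m' A B D = true) :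
    blocks C PR z L n m M1 M2 T K = true := by
  refine blocks_mono (fun a b c d e h1 => ?_) L n m M1 M2 T h
  obtain ⟨rfl, rfl, rfl, rfl, rfl⟩ := st_eq h1
  exact hK

theorem small_st {C : ℕ} {m' : ML} {A B D : ℕ} {K : ML → ℕ → ℕ → ℕ → Bool}
    (hK : K m' A B D = true) : ∀ (L : List Sm) (m : ML) (M1 M2 T : ℕ),
    small C L m M1 M2 T (st4 m' A B D) = true → small C L m M1 M2 T K = true := by
  intro L
  induction L with
  | nil =>
    intro m M1 M2 T h
    obtain ⟨rfl, rfl, rfl, rfl⟩ := st4_eq h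
    exact hK
  | cons a L ih =>
    intro m M1 M2 T h
    simp only [small, sqe, frce] at h ⊢
    exact ih _ _ _ _ h

end Pool.Agent.COV.H51
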