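import Pool.Agent.Helper51_COV.StB

set_option autoImplicit false
set_option maxRecDepth 1000000

/-!
Squad COV: kernel run, class B, piece 1.
-/

namespace Pool.Agent.COV.H51

open Pool.Agent.COV

theorem pB0 : small 524288 smB [(1, SC)] SC SC 0 (st4 mS0 6542048638672 163127344819398 3332837396799) = true := by
  decide +kernel

theorem pB1 : blocks 524288 PRa 1 b1B 61 mS0 6542048638672 163127344819398 3332837396799
    (st 1045 mS1 13680364562867 1477107315936013 3872697513351) = true := by
  decide +kernel

end Pool.Agent.COV.H51
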