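import Pool.Agent.Helper51_COV.StB

set_option autoImplicit false
set_option maxRecDepth 1000000

/-!
Squad COV: kernel run, class B, piece 10.
-/

namespace Pool.Agent.COV.H51

open Pool.Agent.COV

theorem pB10 : blocks 524288 PRc 1 c10 962221 mS9 35899339585298 26679066202911530 3969282362377
    (st 1048579 mS10 36147261846883 27235632045276448 3969371675074) = true := by
  decide +kernel

end Pool.Agent.COV.H51
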