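import Pool.Agent.Helper51_COV.StB

set_option autoImplicit false
set_option maxRecDepth 1000000

/-!
Squad COV: kernel run, class B, piece 2.
-/

namespace Pool.Agent.COV.H51

open Pool.Agent.COV

theorem pB2 : blocks 524288 PRc 1 c2 1045 mS1 13680364562867 1477107315936013 3872697513351
    (st 112495 mS2 29267634906249 14456884797380600 3966095756187) = true := by
  decide +kernel

end Pool.Agent.COV.H51
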