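import Pool.Agent.Helper51_COV.StB

set_option autoImplicit false
set_option maxRecDepth 1000000

/-!
Squad COV: kernel run, class B, piece 4.
-/

namespace Pool.Agent.COV.H51

open Pool.Agent.COV

theorem pB4 : blocks 524288 PRc 1 c4 222685 mS3 31451980695135 17941364508049321 3967459778680
    (st 345421 mS4 32822634589978 20390678098343363 3968103954204) = true := by
  decide +kernel

end Pool.Agent.COV.H51
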