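import Pool.Agent.Helper51_COV.StB

set_option autoImplicit false
set_option maxRecDepth 1000000

/-!
Squad COV: kernel run, class B, piece 8.
-/

namespace Pool.Agent.COV.H51

open Pool.Agent.COV

theorem pB8 : blocks 524288 PRc 1 c8 718045 mS7 35035205054481 24798491101676214 3968978817640
    (st 831211 mS8 35472060118758 25737744815091033 3969130795806) = true := by
  decide +kernel

end Pool.Agent.COV.H51
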