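import Pool.Agent.Helper51_COV.PB1
import Pool.Agent.Helper51_COV.PB2
import Pool.Agent.Helper51_COV.PB3
import Pool.Agent.Helper51_COV.PB4
import Pool.Agent.Helper51_COV.PB5
import Pool.Agent.Helper51_COV.PB6
import Pool.Agent.Helper51_COV.PB7
import Pool.Agent.Helper51_COV.PB8
import Pool.Agent.Helper51_COV.PB9
import Pool.Agent.Helper51_COV.PB10

set_option autoImplicit false
set_option maxRecDepth 1000000

/-!
Squad COV: kernel run, class B, assembled from 10 pieces.
-/

namespace Pool.Agent.COV.H51

open Pool.Agent.COV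

theorem runB : drive 524288 PRc 1 20 16 4 61 smB b1B b2B = true := by
  unfold drive
  rw [b2B_eq]
  refine small_st ?_ smB _ _ _ _ pB0
  refine blocks_st pB1 ?_
  rw [blocks_append]
  refine blocks_st pB2 ?_
  rw [blocks_append]
  refine blocks_st pB3 ?_
  rw [blocks_append]
  refine blocks_st pB4 ?_
  rw [blocks_append]
  refine blocks_st pB5 ?_
  rw [blocks_append]
  refine blocks_st pB6 ?_
  rw [blocks_append]
  refine blocks_st pB7 ?_
  rw [blocks_append]
  refine blocks_st pB8 ?_
  rw [blocks_append]
  refine blocks_st pB9 ?_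
  refine blocks_st pB10 ?_
  decide +kernel

end Pool.Agent.COV.H51
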